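import Pool.Agent.W45.FL.Meas
import Pool.Agent.W227.FL.Sat
import Pool.Agent.W227.FL.Sel

/-!
MP_44611a_co (S08439), subtask FL-G2: the statement as requested.
-/

set_option autoImplicit false

namespace Pool.Agent.W45.FL

open Filter Topology MeasureTheory Pool.Agent.W227.FL

theorem meas_main {U : Ultrafilter ℕ} {m : ℕ → ℕ} (hU : (U : Filter ℕ) ≤ atTop) (hm : ∀ n, 0 < m n)
    (hmt : Tendsto m U atTop) (c : ∀ n, Fin (m n) → Bool) :
    ∃ ν : Measure (∀ k, RT k (k + 1)), IsProbabilityMeasure ν ∧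
      ∀ X : (∀ k, RT k (k + 1)) → Star U m,
        (∀ p ∈ GoodTp (cstar c : Star U m → Bool) (gstar hm),
          tpx (cstar c) (gstar hm) (X p) = p) →
        ∀ (q k : ℕ) (Φ : Set (RT q k)),
          MeasurableSet {p : Fin k → (∀ k, RT k (k + 1)) | rt (cstar c) q (X ∘ p) ∈ Φ} →
          Tendsto (fun n => (Nat.card {v : Fin k → Fin (m n) // rt (c n) q v ∈ Φ} : ℝ)
            / (m n : ℝ) ^ k) U
            (𝓝 ((Measure.pi fun _ : Fin k => ν)
              {p : Fin k → (∀ k, RT k (k + 1)) | rt (cstar c) q (X ∘ p) ∈ Φ}).toReal) :=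
  meas_main_of hm hmt c (bad_countable _ _) (star_sat hU hm c)

/-- the stronger form: `ν` is concentrated on the types of good points and no measurability is
needed -/
theorem meas_main_strong {U : Ultrafilter ℕ} {m : ℕ → ℕ} (hU : (U : Filter ℕ) ≤ atTop)
    (hm : ∀ n, 0 < m n) (hmt : Tendsto m U atTop) (c : ∀ n, Fin (m n) → Bool) :
    ∃ ν : Measure (∀ k, RT k (k + 1)), IsProbabilityMeasure ν ∧
      (∀ᵐ ω ∂ν, ω ∈ GoodTp (cstar c : Star U m → Bool) (gstar hm)) ∧
      ∀ X : (∀ k, RT k (k + 1)) → Star U m,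
        (∀ p ∈ GoodTp (cstar c : Star U m → Bool) (gstar hm),
          tpx (cstar c) (gstar hm) (X p) = p) →
        ∀ (q k : ℕ) (Φ : Set (RT q k)),
          Tendsto (fun n => (Nat.card {v : Fin k → Fin (m n) // rt (c n) q v ∈ Φ} : ℝ)
            / (m n : ℝ) ^ k) U
            (𝓝 ((Measure.pi fun _ : Fin k => ν)
              {p : Fin k → (∀ k, RT k (k + 1)) | rt (cstar c) q (X ∘ p) ∈ Φ}).toReal) :=
  meas_main' hm hmt c (bad_countable _ _) (star_sat hU hm c)

end Pool.Agent.W45.FL
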