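import Pool.Agent.W45.FL.Sep

/-!
MP_44611a_co (S08439), subtask FL-G2, part 2: almost every type is the type of a good point.
-/

set_option autoImplicit false

namespace Pool.Agent.W45.FL

open Filter Topology MeasureTheory Pool.Agent.W227.FL
open scoped ENNReal

section
variable {U : Ultrafilter ℕ} {m : ℕ → ℕ}

/-- Los for `tpx` -/
theorem tpx_mk (hm : ∀ n, 0 < m n) (c : ∀ n, Fin (m n) → Bool) (x : ∀ n, Fin (m n)) (K : ℕ) :
    ∀ᶠ n in (U : Filter ℕ), tpx (cstar c) (gstar hm) (mk x : Star U m) K =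
      tpx (c n) (fun i => gr hm i n) (x n) K := by
  have h := rt_mk (U := U) hm c K (Fin.snoc (fun i : Fin K => gr hm i) x : Fin (K + 1) → ∀ n, Fin (m n))
  filter_upwards [h] with n hn
  have e1 : (fun i : Fin (K + 1) => (mk ((Fin.snoc (fun i : Fin K => gr hm i) x :
      Fin (K + 1) → ∀ n, Fin (m n)) i) : Star U m)) =
      (Fin.snoc (fun i : Fin K => gstar hm i) (mk x) : Fin (K + 1) → Star U m) := by
    funext i
    refine Fin.lastCases ?_ (fun j => ?_) i <;> simp [gstar]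
  have e2 : (fun i : Fin (K + 1) => (Fin.snoc (fun i : Fin K => gr hm i) x :
      Fin (K + 1) → ∀ n, Fin (m n)) i n) =
      (Fin.snoc (fun i : Fin K => gr hm i n) (x n) : Fin (K + 1) → Fin (m n)) := by
    funext i
    refine Fin.lastCases ?_ (fun j => ?_) i <;> simp
  rw [e1, e2] at hn
  exact hn

/-- types realised in almost all `A_n` are realised in the ultraproduct -/
theorem real_star (hm : ∀ n, 0 < m n) (c : ∀ n, Fin (m n) → Bool) (K : ℕ) :
    ∀ᶠ n in (U : Filter ℕ), ∀ x : Fin (m n), ∃ z : Star U m,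
      tpx (cstar c) (gstar hm) z K = tpx (c n) (fun i => gr hm i n) x K := by
  classical
  have h : ∀ᶠ n in (U : Filter ℕ), ∀ ρ : RT K (K + 1),
      (∃ x : Fin (m n), tpx (c n) (fun i => gr hm i n) x K = ρ) →
        ∃ z : Star U m, tpx (cstar c) (gstar hm) z K = ρ := by
    rw [eventually_all]
    intro ρ
    by_cases hz : ∃ z : Star U m, tpx (cstar c) (gstar hm) z K = ρ
    · exact Eventually.of_forall fun n _ => hz
    · by_contra hcon
      rw [← Ultrafilter.eventually_not] at hcon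
      have h2 : ∀ᶠ n in (U : Filter ℕ), ∃ x : Fin (m n), tpx (c n) (fun i => gr hm i n) x K = ρ := by
        filter_upwards [hcon] with n hn
        by_contra h3
        exact hn fun h4 => absurd h4 h3
      let y : ∀ n, Fin (m n) := fun n =>
        if hn : ∃ x : Fin (m n), tpx (c n) (fun i => gr hm i n) x K = ρ
        then hn.choose else ⟨0, hm n⟩
      obtain ⟨n, hn, hn'⟩ := ((tpx_mk (U := U) hm c y K).and h2).exists
      have hy : y n = hn'.choose := by simp only [y]; rw [dif_pos hn']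
      apply hz
      refine ⟨mk y, ?_⟩
      rw [hn, hy]
      exact hn'.choose_spec
  filter_upwards [h] with n hn x
  exact hn _ ⟨x, rfl⟩

/-- the limit property of the measure `ν` -/
def IsLim (U : Ultrafilter ℕ) (hm : ∀ n, 0 < m n) (c : ∀ n, Fin (m n) → Bool)
    (ν : Measure (∀ k, RT k (k + 1))) : Prop :=
  ∀ C : Set (∀ k, RT k (k + 1)), IsClopen C →
    Tendsto (fun n => (Nat.card {x : Fin (m n) // tpx (c n) (fun i => gr hm i n) x ∈ C} : ℝ)
      / (m n : ℝ)) U (𝓝 (ν C).toReal)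

theorem isClopen_cyl (J : ℕ) (B : Set (∀ j : Fin (J + 1), RT j (j + 1))) :
    IsClopen ((fun (ω : ∀ k, RT k (k + 1)) (j : Fin (J + 1)) => ω j) ⁻¹' B) := by
  refine (isClopen_discrete B).preimage ?_
  exact continuous_pi fun j => continuous_apply (j : ℕ)

theorem ae_real_fin (hm : ∀ n, 0 < m n) (c : ∀ n, Fin (m n) → Bool)
    (ν : Measure (∀ k, RT k (k + 1))) [IsProbabilityMeasure ν] (hν : IsLim U hm c ν) (J : ℕ) :
    ∀ᵐ ω ∂ν, ∃ z : Star U m, ∀ j ≤ J, tpx (cstar c) (gstar hm) z j = ω j := by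
  have hbor : BorelSpace (∀ k, RT k (k + 1)) := Pi.borelSpace
  set B : Set (∀ j : Fin (J + 1), RT j (j + 1)) :=
    {r | ∃ z : Star U m, ∀ j : Fin (J + 1), tpx (cstar c) (gstar hm) z j = r j} with hB
  set C := (fun (ω : ∀ k, RT k (k + 1)) (j : Fin (J + 1)) => ω j) ⁻¹' B with hC
  have h1 := hν C (isClopen_cyl J B)
  have h2 : ∀ᶠ n in (U : Filter ℕ), (Nat.card {x : Fin (m n) // tpx (c n) (fun i => gr hm i n) x ∈ C} : ℝ)
      / (m n : ℝ) = 1 := by
    filter_upwards [real_star (U := U) hm c J] with n hn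
    have : ∀ x : Fin (m n), tpx (c n) (fun i => gr hm i n) x ∈ C := by
      intro x
      obtain ⟨z, hz⟩ := hn x
      exact ⟨z, fun j => tpx_anti (Nat.lt_succ_iff.1 j.2) hz⟩
    have e : Nat.card {x : Fin (m n) // tpx (c n) (fun i => gr hm i n) x ∈ C} = m n := by
      rw [Nat.card_congr (Equiv.subtypeUnivEquiv this)]
      simp
    rw [e, div_self]
    exact_mod_cast (hm n).ne'
  have h3 : (ν C).toReal = 1 :=
    tendsto_nhds_unique h1 (tendsto_const_nhds.congr' (h2.mono fun n hn => hn.symm))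
  have h4 : ν C = 1 := by
    have := congrArg ENNReal.ofReal h3
    rw [ENNReal.ofReal_toReal (measure_ne_top _ _), ENNReal.ofReal_one] at this
    exact this
  have h5 : ∀ᵐ ω ∂ν, ω ∈ C := by
    rw [← prob_compl_eq_zero_iff (isClopen_cyl J B).2.measurableSet] at h4
    exact h4
  filter_upwards [h5] with ω hω
  obtain ⟨z, hz⟩ := hω
  exact ⟨z, fun j hj => hz ⟨j, Nat.lt_succ_iff.2 hj⟩⟩

/-- saturation for one type -/
theorem real_of_fin (hm : ∀ n, 0 < m n) (c : ∀ n, Fin (m n) → Bool)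
    (hsat : SatProp (cstar c : Star U m → Bool)) (ω : ∀ k, RT k (k + 1))
    (h : ∀ J, ∃ z : Star U m, ∀ j ≤ J, tpx (cstar c) (gstar hm) z j = ω j) :
    ∃ z : Star U m, tpx (cstar c) (gstar hm) z = ω := by
  have key : ∀ (j : ℕ) (a a' : ℕ → Star U m),
      Tp (cstar c : Star U m → Bool) (ilv (gstar hm) a) (2 * j + 2) =
        Tp (cstar c : Star U m → Bool) (ilv (gstar hm) a') (2 * j + 2) →
      tpx (cstar c) (gstar hm) (a 0) j = tpx (cstar c) (gstar hm) (a' 0) j := by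
    intro j a a' h
    have h2 := rt_comp h (show j ≤ 2 * j + 2 by omega)
      (fun i : Fin (j + 1) => if hi : (i : ℕ) < j then (⟨2 * i, by omega⟩ : Fin (2 * j + 2))
        else ⟨1, by omega⟩)
    have e : ∀ a : ℕ → Star U m, ((fun i : Fin (2 * j + 2) => ilv (gstar hm) a i) ∘
        (fun i : Fin (j + 1) => if hi : (i : ℕ) < j then (⟨2 * i, by omega⟩ : Fin (2 * j + 2))
        else ⟨1, by omega⟩)) = (Fin.snoc (fun i : Fin j => gstar hm i) (a 0) : Fin (j + 1) → Star U m) := by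
      intro a
      funext i
      refine Fin.lastCases ?_ (fun i' => ?_) i
      · simp [ilv]
      · simp [ilv]
    rw [e, e] at h2
    exact h2
  obtain ⟨a, ha⟩ := hsat (gstar hm) (fun j => 2 * j + 2)
    (fun j => {ρ | ∃ a : ℕ → Star U m, Tp (cstar c : Star U m → Bool) (ilv (gstar hm) a) (2 * j + 2) = ρ ∧
      tpx (cstar c) (gstar hm) (a 0) j = ω j}) (by
      intro n
      obtain ⟨z, hz⟩ := h n
      exact ⟨fun _ => z, fun j hj => ⟨fun _ => z, rfl, hz j hj⟩⟩)
  refine ⟨a 0, ?_⟩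
  funext j
  obtain ⟨a', h1, h2⟩ := ha j
  rw [← h2]
  exact key j a a' h1.symm

theorem tendsto_inv_U (hmt : Tendsto m U atTop) : Tendsto (fun n => ((m n : ℝ))⁻¹) U (𝓝 0) :=
  tendsto_inv_atTop_zero.comp (tendsto_natCast_atTop_atTop.comp hmt)

/-- a given cut has measure zero -/
theorem null_cut (hm : ∀ n, 0 < m n) (hmt : Tendsto m U atTop) (c : ∀ n, Fin (m n) → Bool)
    (ν : Measure (∀ k, RT k (k + 1))) [IsProbabilityMeasure ν] (hν : IsLim U hm c ν)
    (κ : ℕ → Bool) :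
    ν {ω | ∃ z : Star U m, tpx (cstar c) (gstar hm) z = ω ∧ cut (gstar hm) z = κ} = 0 := by
  have hbor : BorelSpace (∀ k, RT k (k + 1)) := Pi.borelSpace
  set W := {ω : ∀ k, RT k (k + 1) | ∃ z : Star U m, tpx (cstar c) (gstar hm) z = ω ∧
    cut (gstar hm) z = κ} with hW
  have key : ∀ N : ℕ, 0 < N → (ν W).toReal ≤ (N : ℝ)⁻¹ := by
    intro N hN
    set K := Nat.pair N N + 2 with hK
    set D : Set (RT K (K + 1)) := {ρ | ∃ z : Star U m, tpx (cstar c) (gstar hm) z K = ρ ∧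
      cut (gstar hm) z = κ} with hD
    have hcl : IsClopen {ω : ∀ k, RT k (k + 1) | ω K ∈ D} :=
      (isClopen_discrete D).preimage (continuous_apply K)
    have h1 := hν _ hcl
    have h2 : ∀ n, (Nat.card {x : Fin (m n) // tpx (c n) (fun i => gr hm i n) x ∈
        {ω : ∀ k, RT k (k + 1) | ω K ∈ D}} : ℝ) / (m n : ℝ) ≤ (N : ℝ)⁻¹ + 2 * (m n : ℝ)⁻¹ := by
      intro n
      have hmn : (0 : ℝ) < m n := by exact_mod_cast hm n
      have h3 := card_close_le (L := m n / N + 1) {x : Fin (m n) | tpx (c n) (fun i => gr hm i n) x ∈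
        {ω : ∀ k, RT k (k + 1) | ω K ∈ D}} (by
          rintro x ⟨z, hz, hzκ⟩ y ⟨w, hw, hwκ⟩
          refine (close_of_not_sep (hm n) hN (K := K) le_rfl ?_).1
          rintro ⟨l, hl, h⟩
          have hcut : gstar hm l < z ↔ gstar hm l < w := by
            have := congrFun (hzκ.trans hwκ.symm) l
            simpa [cut] using this
          have hx := tpx_lt hl hz
          have hy := tpx_lt hl hw
          have hxy : (gr hm l n < x ↔ gr hm l n < y) := by
            rw [← hx.2, ← hy.2, hcut]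
          rcases h with h | h
          · exact absurd (hxy.2 h.2) (not_lt.2 h.1.le)
          · exact absurd (hxy.1 h.2) (not_lt.2 h.1.le))
      have h4 : (Nat.card {x : Fin (m n) // tpx (c n) (fun i => gr hm i n) x ∈
        {ω : ∀ k, RT k (k + 1) | ω K ∈ D}} : ℝ) ≤ ((m n / N + 1 + 1 : ℕ) : ℝ) := by
        exact_mod_cast h3
      have h5 : ((m n / N + 1 + 1 : ℕ) : ℝ) ≤ (m n : ℝ) / N + 2 := by
        push_cast
        have := @Nat.cast_div_le ℝ _ _ _ (m n) N
        linarith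
      rw [div_le_iff₀ hmn]
      calc _ ≤ _ := h4
        _ ≤ _ := h5
        _ = ((N : ℝ)⁻¹ + 2 * (m n : ℝ)⁻¹) * m n := by
          field_simp
    have h3 : Tendsto (fun n => (N : ℝ)⁻¹ + 2 * (m n : ℝ)⁻¹) U (𝓝 ((N : ℝ)⁻¹ + 2 * 0)) :=
      tendsto_const_nhds.add ((tendsto_inv_U hmt).const_mul 2)
    have h4 := le_of_tendsto_of_tendsto' h1 h3 h2
    have h5 : ν W ≤ ν {ω : ∀ k, RT k (k + 1) | ω K ∈ D} := by
      refine measure_mono ?_
      rintro ω ⟨z, hz, hzκ⟩
      exact ⟨z, by rw [hz], hzκ⟩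
    have h6 : (ν W).toReal ≤ (ν {ω : ∀ k, RT k (k + 1) | ω K ∈ D}).toReal :=
      ENNReal.toReal_mono (measure_ne_top _ _) h5
    linarith
  have h0 : (ν W).toReal ≤ 0 := by
    refine ge_of_tendsto (f := fun N : ℕ => (N : ℝ)⁻¹) (x := atTop) ?_ ?_
    · exact tendsto_inv_atTop_zero.comp tendsto_natCast_atTop_atTop
    · filter_upwards [eventually_gt_atTop 0] with N hN using key N hN
  have h1 : (ν W).toReal = 0 := le_antisymm h0 ENNReal.toReal_nonneg
  rcases (ENNReal.toReal_eq_zero_iff _).1 h1 with h | h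
  · exact h
  · exact absurd h (measure_ne_top _ _)

theorem ae_good (hm : ∀ n, 0 < m n) (hmt : Tendsto m U atTop) (c : ∀ n, Fin (m n) → Bool)
    (hbad : (Bad (cstar c : Star U m → Bool) (gstar hm)).Countable)
    (hsat : SatProp (cstar c : Star U m → Bool))
    (ν : Measure (∀ k, RT k (k + 1))) [IsProbabilityMeasure ν] (hν : IsLim U hm c ν) :
    ∀ᵐ ω ∂ν, ω ∈ GoodTp (cstar c : Star U m → Bool) (gstar hm) := by
  have h1 : ∀ᵐ ω ∂ν, ∀ J, ∃ z : Star U m, ∀ j ≤ J, tpx (cstar c) (gstar hm) z j = ω j :=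
    ae_all_iff.2 fun J => ae_real_fin hm c ν hν J
  have h2 : ∀ᵐ ω ∂ν, ∀ κ ∈ (Bad (cstar c : Star U m → Bool) (gstar hm)) ∪
      Set.range (fun l => cut (gstar hm) (gstar hm l : Star U m)),
      ¬ ∃ z : Star U m, tpx (cstar c) (gstar hm) z = ω ∧ cut (gstar hm) z = κ := by
    rw [ae_ball_iff (hbad.union (Set.countable_range _))]
    intro κ _
    have := null_cut hm hmt c ν hν κ
    rw [ae_iff]
    simpa using this
  filter_upwards [h1, h2] with ω h1 h2
  obtain ⟨z, hz⟩ := real_of_fin hm c hsat ω h1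
  refine ⟨z, ⟨?_, ?_⟩, hz⟩
  · rintro ⟨l, rfl⟩
    exact h2 _ (Or.inr ⟨l, rfl⟩) ⟨_, hz, rfl⟩
  · intro hb
    exact h2 _ (Or.inl hb) ⟨_, hz, rfl⟩

end

end Pool.Agent.W45.FL
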