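import Pool.Agent.W45.FL.Prod

/-!
MP_44611a_co (S08439), subtask FL-G2: main statement.
-/

set_option autoImplicit false

namespace Pool.Agent.W45.FL

open Filter Topology MeasureTheory Pool.Agent.W227.FL
open scoped ENNReal

section
variable {U : Ultrafilter ℕ} {m : ℕ → ℕ}

/-- level `K` types of pairwise separated tuples of the ultraproduct -/
def PsiSep (U : Ultrafilter ℕ) (hm : ∀ n, 0 < m n) (c : ∀ n, Fin (m n) → Bool) (K k : ℕ) :
    Set (Fin k → RT K (K + 1)) :=
  {r | ∃ p : Fin k → Star U m, (∀ i j, i ≠ j → Sep (gstar hm) K (p i) (p j)) ∧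
    ∀ i, tpx (cstar c) (gstar hm) (p i) K = r i}

/-- level `K` types of pairwise separated tuples of the ultraproduct with rank `q` type in `Φ` -/
def Psi (U : Ultrafilter ℕ) (hm : ∀ n, 0 < m n) (c : ∀ n, Fin (m n) → Bool) (K k q : ℕ)
    (Φ : Set (RT q k)) : Set (Fin k → RT K (K + 1)) :=
  {r | ∃ p : Fin k → Star U m, (∀ i j, i ≠ j → Sep (gstar hm) K (p i) (p j)) ∧
    (∀ i, tpx (cstar c) (gstar hm) (p i) K = r i) ∧ rt (cstar c) q p ∈ Φ}

theorem Psi_sub {hm : ∀ n, 0 < m n} {c : ∀ n, Fin (m n) → Bool} {K k q : ℕ}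
    {Φ : Set (RT q k)} : Psi U hm c K k q Φ ⊆ PsiSep U hm c K k := by
  rintro r ⟨p, h1, h2, h3⟩
  exact ⟨p, h1, h2⟩

/-- the types of a tuple decide membership -/
theorem mem_Psi_iff {A : Type} [LinearOrder A] {cA : A → Bool} {g : ℕ → A}
    {hm : ∀ n, 0 < m n} {c : ∀ n, Fin (m n) → Bool} {K k q : ℕ} (hq : q ≤ K) (hk : 0 < k)
    {Φ : Set (RT q k)} {v : Fin k → A}
    (hv : (fun i => tpx cA g (v i) K) ∈ PsiSep U hm c K k) :
    rt cA q v ∈ Φ ↔ (fun i => tpx cA g (v i) K) ∈ Psi U hm c K k q Φ := by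
  constructor
  · intro h
    obtain ⟨p, h1, h2⟩ := hv
    refine ⟨p, h1, h2, ?_⟩
    rw [rt_eq_of_sep (v := p) (v' := v) hq hk h2 h1]
    exact h
  · rintro ⟨p, h1, h2, h3⟩
    rw [← rt_eq_of_sep (v := p) (v' := v) hq hk h2 h1]
    exact h3

/-- non-separated tuples are rare -/
theorem card_nonsep_le (hm : ∀ n, 0 < m n) (c : ∀ n, Fin (m n) → Bool) {N K : ℕ} (hN : 0 < N)
    (hK : Nat.pair N N + 2 ≤ K) {k : ℕ} (hk : 0 < k) :
    ∀ᶠ n in (U : Filter ℕ), (Nat.card {v : Fin k → Fin (m n) //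
        (fun i => tpx (c n) (fun i => gr hm i n) (v i) K) ∈ (PsiSep U hm c K k)ᶜ} : ℝ) / (m n : ℝ) ^ k ≤
      (k : ℝ) ^ 2 * (2 * (N : ℝ)⁻¹ + 3 * (m n : ℝ)⁻¹) := by
  classical
  filter_upwards [real_star (U := U) hm c K] with n hn
  have hmn : (0 : ℝ) < m n := by exact_mod_cast hm n
  set g : ℕ → Fin (m n) := fun i => gr hm i n with hg
  have hsub : ∀ v : Fin k → Fin (m n), (fun i => tpx (c n) g (v i) K) ∈ (PsiSep U hm c K k)ᶜ →
      ∃ ij : Fin k × Fin k, ij.1 ≠ ij.2 ∧ ¬ Sep g K (v ij.1) (v ij.2) := by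
    intro v hv
    by_contra hcon
    push Not at hcon
    apply hv
    choose z hz using fun i => hn (v i)
    refine ⟨z, fun i j hij => ?_, hz⟩
    exact (hcon (i, j) hij).transfer (hz i).symm (hz j).symm
  have h1 : Nat.card {v : Fin k → Fin (m n) //
      (fun i => tpx (c n) g (v i) K) ∈ (PsiSep U hm c K k)ᶜ} ≤
      ∑ ij : Fin k × Fin k, (m n) ^ (k - 1) * (2 * (m n / N + 1) + 1) := by
    rw [Nat.card_eq_fintype_card, Fintype.card_subtype]
    have h2 : Finset.univ.filter (fun v : Fin k → Fin (m n) =>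
        (fun i => tpx (c n) g (v i) K) ∈ (PsiSep U hm c K k)ᶜ) ⊆
        Finset.univ.biUnion (fun ij : Fin k × Fin k => Finset.univ.filter
          (fun v : Fin k → Fin (m n) => ij.1 ≠ ij.2 ∧ ¬ Sep g K (v ij.1) (v ij.2))) := by
      intro v hv
      simp only [Finset.mem_filter, Finset.mem_univ, true_and] at hv
      obtain ⟨ij, h1, h2⟩ := hsub v hv
      simp only [Finset.mem_biUnion, Finset.mem_filter, Finset.mem_univ, true_and]
      exact ⟨ij, h1, h2⟩
    refine (Finset.card_le_card h2).trans (Finset.card_biUnion_le.trans ?_)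
    refine Finset.sum_le_sum fun ij _ => ?_
    by_cases hij : ij.1 = ij.2
    · simp [hij]
    · have h3 := card_pair_le (m := m n) (L := m n / N + 1) ij.1 ij.2 hij
        (fun x y => ¬ Sep g K x y) (fun x y hxy => close_of_not_sep (hm n) hN hK hxy)
      rw [Nat.card_eq_fintype_card, Fintype.card_subtype] at h3
      refine le_trans (le_of_eq ?_) h3
      congr 1
      ext v
      simp [hij]
  rw [Finset.sum_const, Finset.card_univ, Fintype.card_prod, Fintype.card_fin, smul_eq_mul] at h1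
  have h2 : (Nat.card {v : Fin k → Fin (m n) //
      (fun i => tpx (c n) g (v i) K) ∈ (PsiSep U hm c K k)ᶜ} : ℝ) ≤
      ((k * k * ((m n) ^ (k - 1) * (2 * (m n / N + 1) + 1)) : ℕ) : ℝ) := by exact_mod_cast h1
  rw [div_le_iff₀ (by positivity)]
  refine h2.trans ?_
  have h3 : ((m n / N : ℕ) : ℝ) ≤ (m n : ℝ) / N := Nat.cast_div_le
  have h4 : (m n : ℝ) ^ k = (m n : ℝ) ^ (k - 1) * m n := by
    rw [← pow_succ]
    congr 1
    omega
  rw [h4]
  push_cast
  have h5 : (2 * ((m n / N : ℕ) + 1) + 1 : ℝ) ≤ 2 * ((m n : ℝ) / N) + 3 := by linarith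
  calc (k : ℝ) * k * ((m n : ℝ) ^ (k - 1) * (2 * ((m n / N : ℕ) + 1) + 1))
      ≤ (k : ℝ) * k * ((m n : ℝ) ^ (k - 1) * (2 * ((m n : ℝ) / N) + 3)) := by
        gcongr
    _ = (k : ℝ) ^ 2 * (2 * (N : ℝ)⁻¹ + 3 * (m n : ℝ)⁻¹) * ((m n : ℝ) ^ (k - 1) * m n) := by
        field_simp

theorem meas_nonsep_le (hm : ∀ n, 0 < m n) (hmt : Tendsto m U atTop) (c : ∀ n, Fin (m n) → Bool)
    (ν : Measure (∀ k, RT k (k + 1))) [IsProbabilityMeasure ν] (hν : IsLim U hm c ν)
    {N K : ℕ} (hN : 0 < N) (hK : Nat.pair N N + 2 ≤ K) {k : ℕ} (hk : 0 < k) :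
    ((Measure.pi fun _ : Fin k => ν) {p | (fun i => p i K) ∈ (PsiSep U hm c K k)ᶜ}).toReal ≤
      (k : ℝ) ^ 2 * (2 * (N : ℝ)⁻¹) := by
  have h1 := dens_tendsto hm c ν hν K (k := k) (PsiSep U hm c K k)ᶜ
  have h2 : Tendsto (fun n => (k : ℝ) ^ 2 * (2 * (N : ℝ)⁻¹ + 3 * (m n : ℝ)⁻¹)) U
      (𝓝 ((k : ℝ) ^ 2 * (2 * (N : ℝ)⁻¹ + 3 * 0))) :=
    (tendsto_const_nhds.add ((tendsto_inv_U hmt).const_mul 3)).const_mul _
  have h3 := le_of_tendsto_of_tendsto h1 h2 (card_nonsep_le hm c hN hK hk)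
  simpa using h3

/-- FL-G2, with the countability of `Bad` and saturation as hypotheses -/
theorem meas_main' (hm : ∀ n, 0 < m n)
    (hmt : Tendsto m U atTop) (c : ∀ n, Fin (m n) → Bool)
    (hbad : (Bad (cstar c : Star U m → Bool) (gstar hm)).Countable)
    (hsat : SatProp (cstar c : Star U m → Bool)) :
    ∃ ν : Measure (∀ k, RT k (k + 1)), IsProbabilityMeasure ν ∧
      (∀ᵐ ω ∂ν, ω ∈ GoodTp (cstar c : Star U m → Bool) (gstar hm)) ∧
      ∀ X : (∀ k, RT k (k + 1)) → Star U m,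
        (∀ p ∈ GoodTp (cstar c : Star U m → Bool) (gstar hm),
          tpx (cstar c) (gstar hm) (X p) = p) →
        ∀ (q k : ℕ) (Φ : Set (RT q k)),
          Tendsto (fun n => (Nat.card {v : Fin k → Fin (m n) // rt (c n) q v ∈ Φ} : ℝ)
            / (m n : ℝ) ^ k) U
            (𝓝 ((Measure.pi fun _ : Fin k => ν)
              {p : Fin k → (∀ k, RT k (k + 1)) | rt (cstar c) q (X ∘ p) ∈ Φ}).toReal) := by
  classical
  obtain ⟨ν, hνp, hν⟩ := exists_nu_clopen hm c U
  have hae := ae_good hm hmt c hbad hsat ν hν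
  refine ⟨ν, hνp, hae, fun X hX q k Φ => ?_⟩
  rcases Nat.eq_zero_or_pos k with hk | hk
  · -- no variables
    subst hk
    have h1 := rt_mk (U := U) hm c q (fun i : Fin 0 => i.elim0)
    by_cases h : rt (cstar c) q (fun i : Fin 0 => (i.elim0 : Star U m)) ∈ Φ
    · have h2 : {p : Fin 0 → (∀ k, RT k (k + 1)) | rt (cstar c) q (X ∘ p) ∈ Φ} = Set.univ := by
        ext p
        have : X ∘ p = (fun i : Fin 0 => (i.elim0 : Star U m)) := Subsingleton.elim _ _
        refine ⟨fun _ => trivial, fun _ => ?_⟩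
        show rt (cstar c) q (X ∘ p) ∈ Φ
        rw [this]; exact h
      rw [h2, measure_univ, ENNReal.toReal_one]
      refine tendsto_const_nhds.congr' ?_
      filter_upwards [h1] with n hn
      have h3 : ∀ v : Fin 0 → Fin (m n), rt (c n) q v ∈ Φ := by
        intro v
        have e1 : v = (fun i : Fin 0 => (fun i : Fin 0 => (i.elim0 : ∀ n, Fin (m n))) i n) :=
          Subsingleton.elim _ _
        rw [e1, ← hn]
        have e2 : (fun i : Fin 0 => (mk ((fun i : Fin 0 => (i.elim0 : ∀ n, Fin (m n))) i) : Star U m)) =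
          (fun i : Fin 0 => (i.elim0 : Star U m)) := Subsingleton.elim _ _
        rw [e2]; exact h
      rw [Nat.card_congr (Equiv.subtypeUnivEquiv h3)]
      simp
    · have h2 : {p : Fin 0 → (∀ k, RT k (k + 1)) | rt (cstar c) q (X ∘ p) ∈ Φ} = ∅ := by
        ext p
        have : X ∘ p = (fun i : Fin 0 => (i.elim0 : Star U m)) := Subsingleton.elim _ _
        constructor
        · intro h3
          have h4 : rt (cstar c) q (X ∘ p) ∈ Φ := h3
          rw [this] at h4
          exact h h4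
        · intro h3
          exact absurd h3 (Set.notMem_empty _)
      rw [h2, measure_empty, ENNReal.toReal_zero]
      refine tendsto_const_nhds.congr' ?_
      filter_upwards [h1] with n hn
      have h3 : ∀ v : Fin 0 → Fin (m n), ¬ rt (c n) q v ∈ Φ := by
        intro v
        have e1 : v = (fun i : Fin 0 => (fun i : Fin 0 => (i.elim0 : ∀ n, Fin (m n))) i n) :=
          Subsingleton.elim _ _
        rw [e1, ← hn]
        have e2 : (fun i : Fin 0 => (mk ((fun i : Fin 0 => (i.elim0 : ∀ n, Fin (m n))) i) : Star U m)) =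
          (fun i : Fin 0 => (i.elim0 : Star U m)) := Subsingleton.elim _ _
        rw [e2]; exact h
      have : IsEmpty {v : Fin 0 → Fin (m n) // rt (c n) q v ∈ Φ} := ⟨fun v => h3 _ v.2⟩
      rw [Nat.card_of_isEmpty]
      simp
  · -- at least one variable
    set P := ((Measure.pi fun _ : Fin k => ν)
      {p : Fin k → (∀ k, RT k (k + 1)) | rt (cstar c) q (X ∘ p) ∈ Φ}) with hP
    have haek : ∀ᵐ p ∂(Measure.pi fun _ : Fin k => ν), ∀ i,
        p i ∈ GoodTp (cstar c : Star U m → Bool) (gstar hm) := by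
      rw [ae_all_iff]
      intro i
      exact (Measure.tendsto_eval_ae_ae (μ := fun _ : Fin k => ν) (i := i)).eventually hae
    rw [Metric.tendsto_nhds]
    intro ε hε
    obtain ⟨N, hN⟩ : ∃ N : ℕ, (k : ℝ) ^ 2 * (2 * (N : ℝ)⁻¹) < ε / 8 ∧ 0 < N := by
      have h1 : Tendsto (fun N : ℕ => (k : ℝ) ^ 2 * (2 * (N : ℝ)⁻¹)) atTop
          (𝓝 ((k : ℝ) ^ 2 * (2 * 0))) :=
        ((tendsto_inv_atTop_zero.comp tendsto_natCast_atTop_atTop).const_mul 2).const_mul _
      have h2 : ∀ᶠ N : ℕ in atTop, (k : ℝ) ^ 2 * (2 * (N : ℝ)⁻¹) < ε / 8 :=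
        h1.eventually (gt_mem_nhds (by simp; positivity))
      obtain ⟨N, h3, h4⟩ := (h2.and (eventually_gt_atTop 0)).exists
      exact ⟨N, h3, h4⟩
    obtain ⟨hNε, hN⟩ := hN
    set K := q + (Nat.pair N N + 2) with hK
    have hqK : q ≤ K := Nat.le_add_right _ _
    have hNK : Nat.pair N N + 2 ≤ K := Nat.le_add_left _ _
    set S := PsiSep U hm c K k with hS
    set T := Psi U hm c K k q Φ with hT
    have hTS : T ⊆ S := Psi_sub
    have hb := meas_nonsep_le hm hmt c ν hν hN hNK hk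
    have t1 := dens_tendsto hm c ν hν K (k := k) T
    have t2 := dens_tendsto hm c ν hν K (k := k) Sᶜ
    set MT := (Measure.pi fun _ : Fin k => ν) {p | (fun i => p i K) ∈ T} with hMT
    set MS := (Measure.pi fun _ : Fin k => ν) {p | (fun i => p i K) ∈ Sᶜ} with hMS
    -- comparison of the measures
    have c1 : P ≤ MT + MS := by
      refine le_trans (measure_mono_ae ?_) (measure_union_le _ _)
      filter_upwards [haek] with p hp h
      have htp : (fun i => tpx (cstar c) (gstar hm) ((X ∘ p) i) K) = fun i => p i K := by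
        funext i
        show tpx (cstar c) (gstar hm) (X (p i)) K = _
        rw [hX _ (hp i)]
      by_cases h2 : (fun i => p i K) ∈ S
      · left
        show (fun i => p i K) ∈ T
        rw [← htp] at h2 ⊢
        exact (mem_Psi_iff hqK hk h2).1 h
      · right; exact h2
    have c2 : MT ≤ P + MS := by
      refine le_trans (measure_mono_ae ?_) (measure_union_le _ _)
      filter_upwards [haek] with p hp h
      have htp : (fun i => tpx (cstar c) (gstar hm) ((X ∘ p) i) K) = fun i => p i K := by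
        funext i
        show tpx (cstar c) (gstar hm) (X (p i)) K = _
        rw [hX _ (hp i)]
      left
      have h1 : (fun i => p i K) ∈ T := h
      have h2 : (fun i => p i K) ∈ S := hTS h1
      rw [← htp] at h1 h2
      exact (mem_Psi_iff hqK hk h2).2 h1
    have hPtop : P ≠ ⊤ := measure_ne_top _ _
    have hMTtop : MT ≠ ⊤ := measure_ne_top _ _
    have hMStop : MS ≠ ⊤ := measure_ne_top _ _
    have c1' : P.toReal ≤ MT.toReal + MS.toReal := by
      rw [← ENNReal.toReal_add hMTtop hMStop]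
      exact ENNReal.toReal_mono (ENNReal.add_ne_top.2 ⟨hMTtop, hMStop⟩) c1
    have c2' : MT.toReal ≤ P.toReal + MS.toReal := by
      rw [← ENNReal.toReal_add hPtop hMStop]
      exact ENNReal.toReal_mono (ENNReal.add_ne_top.2 ⟨hPtop, hMStop⟩) c2
    -- comparison of the densities
    have d1 : ∀ n, (Nat.card {v : Fin k → Fin (m n) // rt (c n) q v ∈ Φ} : ℝ) / (m n : ℝ) ^ k ≤
        (Nat.card {v : Fin k → Fin (m n) //
          (fun i => tpx (c n) (fun i => gr hm i n) (v i) K) ∈ T} : ℝ) / (m n : ℝ) ^ k +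
        (Nat.card {v : Fin k → Fin (m n) //
          (fun i => tpx (c n) (fun i => gr hm i n) (v i) K) ∈ Sᶜ} : ℝ) / (m n : ℝ) ^ k := by
      intro n
      rw [← add_div]
      refine div_le_div_of_nonneg_right ?_ (by positivity)
      norm_cast
      rw [Nat.card_eq_fintype_card, Nat.card_eq_fintype_card, Nat.card_eq_fintype_card,
        Fintype.card_subtype, Fintype.card_subtype, Fintype.card_subtype]
      refine le_trans (Finset.card_le_card ?_) (Finset.card_union_le _ _)
      intro v hv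
      simp only [Finset.mem_filter, Finset.mem_univ, true_and, Finset.mem_union] at hv ⊢
      by_cases h2 : (fun i => tpx (c n) (fun i => gr hm i n) (v i) K) ∈ S
      · left
        exact (mem_Psi_iff hqK hk h2).1 hv
      · right; exact h2
    have d2 : ∀ n, (Nat.card {v : Fin k → Fin (m n) //
          (fun i => tpx (c n) (fun i => gr hm i n) (v i) K) ∈ T} : ℝ) / (m n : ℝ) ^ k ≤
        (Nat.card {v : Fin k → Fin (m n) // rt (c n) q v ∈ Φ} : ℝ) / (m n : ℝ) ^ k := by
      intro n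
      refine div_le_div_of_nonneg_right ?_ (by positivity)
      norm_cast
      rw [Nat.card_eq_fintype_card, Nat.card_eq_fintype_card,
        Fintype.card_subtype, Fintype.card_subtype]
      refine Finset.card_le_card ?_
      intro v hv
      simp only [Finset.mem_filter, Finset.mem_univ, true_and] at hv ⊢
      exact (mem_Psi_iff hqK hk (hTS hv)).2 hv
    have e1 := (Metric.tendsto_nhds.1 t1) (ε / 4) (by positivity)
    have e2 := (Metric.tendsto_nhds.1 t2) (ε / 4) (by positivity)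
    filter_upwards [e1, e2] with n h1 h2
    have d1n := d1 n
    have d2n := d2 n
    rw [Real.dist_eq, abs_lt] at h1 h2 ⊢
    constructor
    · linarith [h1.1, h1.2, h2.1, h2.2]
    · linarith [h1.1, h1.2, h2.1, h2.2]

/-- FL-G2 in the requested form, with the countability of `Bad` and saturation as hypotheses -/
theorem meas_main_of {U : Ultrafilter ℕ} {m : ℕ → ℕ} (hm : ∀ n, 0 < m n)
    (hmt : Tendsto m U atTop) (c : ∀ n, Fin (m n) → Bool)
    (hbad : (Bad (cstar c : Star U m → Bool) (gstar hm)).Countable)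
    (hsat : SatProp (cstar c : Star U m → Bool)) :
    ∃ ν : Measure (∀ k, RT k (k + 1)), IsProbabilityMeasure ν ∧
      ∀ X : (∀ k, RT k (k + 1)) → Star U m,
        (∀ p ∈ GoodTp (cstar c : Star U m → Bool) (gstar hm),
          tpx (cstar c) (gstar hm) (X p) = p) →
        ∀ (q k : ℕ) (Φ : Set (RT q k)),
          MeasurableSet {p : Fin k → (∀ k, RT k (k + 1)) | rt (cstar c) q (X ∘ p) ∈ Φ} →
          Tendsto (fun n => (Nat.card {v : Fin k → Fin (m n) // rt (c n) q v ∈ Φ} : ℝ)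
            / (m n : ℝ) ^ k) U
            (𝓝 ((Measure.pi fun _ : Fin k => ν)
              {p : Fin k → (∀ k, RT k (k + 1)) | rt (cstar c) q (X ∘ p) ∈ Φ}).toReal) := by
  obtain ⟨ν, h1, _, h2⟩ := meas_main' hm hmt c hbad hsat
  exact ⟨ν, h1, fun X hX q k Φ _ => h2 X hX q k Φ⟩

end

end Pool.Agent.W45.FL
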