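import Pool.Agent.W227.FL.Grid

/-!
MP_44611a_co (S08439), subtask FL-G1: the limit measure on the space of types over the grid.
-/

set_option autoImplicit false

namespace Pool.Agent.W45.FL

open Filter Topology MeasureTheory Pool.Agent.W227.FL
open scoped ENNReal

/-- the space of types over the grid -/
abbrev Om : Type := ∀ k, RT k (k + 1)

/-- the empirical measure of a finite family of points -/
theorem emp_apply {m : ℕ} {Ω : Type} [MeasurableSpace Ω] (f : Fin m → Ω) {C : Set Ω}
    (hC : MeasurableSet C) :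
    (((m : ℝ≥0∞)⁻¹ • ∑ x : Fin m, Measure.dirac (f x) : Measure Ω) C).toReal =
      (Nat.card {x : Fin m // f x ∈ C} : ℝ) / (m : ℝ) := by
  classical
  rw [Measure.smul_apply, Measure.finsetSum_apply]
  have h1 : ∀ x : Fin m, Measure.dirac (f x) C = if f x ∈ C then 1 else 0 := by
    intro x
    rw [Measure.dirac_apply' _ hC, Set.indicator_apply]
    rfl
  simp_rw [h1]
  rw [Finset.sum_boole, Nat.card_eq_fintype_card, Fintype.card_subtype, smul_eq_mul,
    ENNReal.toReal_mul, ENNReal.toReal_inv, ENNReal.toReal_natCast, ENNReal.toReal_natCast]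
  rw [div_eq_inv_mul]

theorem exists_nu_clopen {m : ℕ → ℕ} (hm : ∀ n, 0 < m n) (c : ∀ n, Fin (m n) → Bool)
    (U : Ultrafilter ℕ) :
    ∃ ν : Measure (∀ k, RT k (k + 1)), IsProbabilityMeasure ν ∧
      ∀ C : Set (∀ k, RT k (k + 1)), IsClopen C →
        Tendsto (fun n => (Nat.card {x : Fin (m n) // tpx (c n) (fun i => gr hm i n) x ∈ C} : ℝ)
          / (m n : ℝ)) U (𝓝 (ν C).toReal) := by
  have hbor : BorelSpace (∀ k, RT k (k + 1)) := Pi.borelSpace
  let μ : ℕ → Measure (∀ k, RT k (k + 1)) := fun n =>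
    (m n : ℝ≥0∞)⁻¹ • ∑ x : Fin (m n), Measure.dirac (tpx (c n) (fun i => gr hm i n) x)
  have hμ : ∀ n, IsProbabilityMeasure (μ n) := by
    intro n
    constructor
    have h := emp_apply (fun x : Fin (m n) => tpx (c n) (fun i => gr hm i n) x)
      MeasurableSet.univ
    have h2 : (m n : ℝ) ≠ 0 := by exact_mod_cast (hm n).ne'
    have h3 : (μ n Set.univ).toReal = 1 := by
      rw [show μ n = _ from rfl, h]
      have : Nat.card {x : Fin (m n) // tpx (c n) (fun i => gr hm i n) x ∈ Set.univ} = m n := by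
        simp
      rw [this, div_self h2]
    have h4 := congrArg ENNReal.ofReal h3
    rw [ENNReal.ofReal_one] at h4
    rw [← h4, ENNReal.ofReal_toReal]
    intro htop
    rw [htop] at h3
    simp at h3
  let μ' : ℕ → ProbabilityMeasure (∀ k, RT k (k + 1)) := fun n => ⟨μ n, hμ n⟩
  obtain ⟨ν, -, hν⟩ := isCompact_univ.ultrafilter_le_nhds (U.map μ') (by simp)
  refine ⟨(ν : Measure (∀ k, RT k (k + 1))), inferInstance, fun C hC => ?_⟩
  have hν' : Tendsto μ' U (𝓝 ν) := hν
  have hfr : (ν : Measure (∀ k, RT k (k + 1))) (frontier C) = 0 := by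
    rw [hC.frontier_eq]; simp
  have h := ProbabilityMeasure.tendsto_measure_of_null_frontier_of_tendsto' hν' hfr
  have h2 := (ENNReal.tendsto_toReal (measure_ne_top (ν : Measure (∀ k, RT k (k + 1))) C)).comp h
  refine h2.congr fun n => ?_
  exact emp_apply _ hC.2.measurableSet

/-- FL-G1 -/
theorem exists_nu {m : ℕ → ℕ} (hm : ∀ n, 0 < m n) (c : ∀ n, Fin (m n) → Bool) (U : Ultrafilter ℕ) :
    ∃ ν : Measure (∀ k, RT k (k + 1)), IsProbabilityMeasure ν ∧
      ∀ (k : ℕ) (B : Set (RT k (k + 1))),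
        Tendsto (fun n => (Nat.card {x : Fin (m n) // tpx (c n) (fun i => gr hm i n) x k ∈ B} : ℝ)
          / (m n : ℝ)) U (𝓝 (ν {ω | ω k ∈ B}).toReal) := by
  obtain ⟨ν, hν, h⟩ := exists_nu_clopen hm c U
  refine ⟨ν, hν, fun k B => h {ω | ω k ∈ B} ?_⟩
  exact (isClopen_discrete B).preimage (continuous_apply k)

end Pool.Agent.W45.FL
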