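import Pool.Agent.W45.FL.Ae

/-!
MP_44611a_co (S08439), subtask FL-G2, part 3: product formula.
-/

set_option autoImplicit false

namespace Pool.Agent.W45.FL

open Filter Topology MeasureTheory Pool.Agent.W227.FL
open scoped ENNReal

open Classical in
theorem card_prod_formula {α β : Type} [Fintype α] [Fintype β] {k : ℕ} (t : α → β)
    (Ψ : Set (Fin k → β)) :
    Nat.card {v : Fin k → α // (fun i => t (v i)) ∈ Ψ} =
      ∑ r ∈ Finset.univ.filter (fun r : Fin k → β => r ∈ Ψ), ∏ i, Nat.card {x : α // t x = r i} := by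
  rw [Nat.card_eq_fintype_card, Fintype.card_subtype]
  rw [Finset.card_eq_sum_card_fiberwise (f := fun v : Fin k → α => fun i => t (v i))
    (t := Finset.univ.filter (fun r : Fin k → β => r ∈ Ψ)) (by
      intro v hv
      simpa using hv)]
  refine Finset.sum_congr rfl fun r hr => ?_
  have hr' : r ∈ Ψ := by simpa using hr
  have : Finset.filter (fun v : Fin k → α => (fun i => t (v i)) = r)
      (Finset.filter (fun v : Fin k → α => (fun i => t (v i)) ∈ Ψ) Finset.univ) =
      Fintype.piFinset (fun i => Finset.univ.filter fun x : α => t x = r i) := by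
    ext v
    simp only [Finset.mem_filter, Finset.mem_univ, true_and, Fintype.mem_piFinset]
    constructor
    · rintro ⟨_, h⟩ i
      exact congrFun h i
    · intro h
      have : (fun i => t (v i)) = r := funext h
      exact ⟨by rw [this]; exact hr', this⟩
  rw [this, Fintype.card_piFinset]
  refine Finset.prod_congr rfl fun i _ => ?_
  rw [Nat.card_eq_fintype_card, Fintype.card_subtype]

open Classical in
theorem pi_prod_formula {Ω β : Type} [MeasurableSpace Ω] [Fintype β] {k : ℕ}
    (ν : Measure Ω) [IsProbabilityMeasure ν] (t : Ω → β) (ht : ∀ b, MeasurableSet {ω | t ω = b})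
    (Ψ : Set (Fin k → β)) :
    ((Measure.pi fun _ : Fin k => ν) {p | (fun i => t (p i)) ∈ Ψ}).toReal =
      ∑ r ∈ Finset.univ.filter (fun r : Fin k → β => r ∈ Ψ), ∏ i, (ν {ω | t ω = r i}).toReal := by
  have h1 : {p : Fin k → Ω | (fun i => t (p i)) ∈ Ψ} =
      ⋃ r ∈ Finset.univ.filter (fun r : Fin k → β => r ∈ Ψ),
        Set.pi Set.univ (fun i => {ω | t ω = r i}) := by
    ext p
    rw [Set.mem_iUnion₂]
    constructor
    · intro h
      exact ⟨fun i => t (p i), by simpa using h, fun i _ => rfl⟩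
    · rintro ⟨r, hr, h⟩
      have h2 : (fun i => t (p i)) = r := funext fun i => h i trivial
      show (fun i => t (p i)) ∈ Ψ
      rw [h2]; simpa using hr
  rw [h1, measure_biUnion_finset]
  · rw [ENNReal.toReal_sum (fun _ _ => measure_ne_top _ _)]
    refine Finset.sum_congr rfl fun r _ => ?_
    rw [Measure.pi_pi, ENNReal.toReal_prod]
  · intro r _ s _ hrs
    rw [Function.onFun, Set.disjoint_left]
    intro p hp hp'
    apply hrs
    funext i
    have h1 : t (p i) = r i := hp i trivial
    have h2 : t (p i) = s i := hp' i trivial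
    rw [← h1, ← h2]
  · intro r _
    exact MeasurableSet.univ_pi fun i => ht (r i)

section
variable {U : Ultrafilter ℕ} {m : ℕ → ℕ}

/-- product formula: densities of conditions on the level `K` types of a tuple -/
theorem dens_tendsto (hm : ∀ n, 0 < m n) (c : ∀ n, Fin (m n) → Bool)
    (ν : Measure (∀ k, RT k (k + 1))) [IsProbabilityMeasure ν] (hν : IsLim U hm c ν)
    (K : ℕ) {k : ℕ} (Ψ : Set (Fin k → RT K (K + 1))) :
    Tendsto (fun n => (Nat.card {v : Fin k → Fin (m n) //
        (fun i => tpx (c n) (fun i => gr hm i n) (v i) K) ∈ Ψ} : ℝ) / (m n : ℝ) ^ k) U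
      (𝓝 ((Measure.pi fun _ : Fin k => ν) {p | (fun i => p i K) ∈ Ψ}).toReal) := by
  classical
  have hbor : BorelSpace (∀ k, RT k (k + 1)) := Pi.borelSpace
  have : Fintype (RT K (K + 1)) := Fintype.ofFinite _
  have hcl : ∀ ρ : RT K (K + 1), IsClopen {ω : ∀ k, RT k (k + 1) | ω K = ρ} := fun ρ =>
    (isClopen_discrete {ρ}).preimage (continuous_apply K)
  have h1 := pi_prod_formula (k := k) ν (fun ω : ∀ k, RT k (k + 1) => ω K)
    (fun b => (hcl b).2.measurableSet) Ψ
  rw [h1]
  have h2 : ∀ n, (Nat.card {v : Fin k → Fin (m n) //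
      (fun i => tpx (c n) (fun i => gr hm i n) (v i) K) ∈ Ψ} : ℝ) / (m n : ℝ) ^ k =
      ∑ r ∈ Finset.univ.filter (fun r : Fin k → RT K (K + 1) => r ∈ Ψ),
        ∏ i, ((Nat.card {x : Fin (m n) // tpx (c n) (fun i => gr hm i n) x K = r i} : ℝ) / (m n : ℝ)) := by
    intro n
    rw [card_prod_formula (fun x : Fin (m n) => tpx (c n) (fun i => gr hm i n) x K) Ψ,
      Nat.cast_sum, Finset.sum_div]
    refine Finset.sum_congr rfl fun r _ => ?_
    rw [Finset.prod_div_distrib, Nat.cast_prod, Finset.prod_const, Finset.card_univ,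
      Fintype.card_fin]
  refine Tendsto.congr (fun n => (h2 n).symm) ?_
  refine tendsto_finsetSum _ fun r _ => tendsto_finsetProd _ fun i _ => ?_
  have h3 := hν {ω : ∀ k, RT k (k + 1) | ω K = r i} (hcl (r i))
  have e : ∀ n, Nat.card {x : Fin (m n) // tpx (c n) (fun i => gr hm i n) x ∈
      {ω : ∀ k, RT k (k + 1) | ω K = r i}} =
      Nat.card {x : Fin (m n) // tpx (c n) (fun i => gr hm i n) x K = r i} := by
    intro n
    exact Nat.card_congr (Equiv.subtypeEquivRight fun x => Iff.rfl)
  refine h3.congr fun n => ?_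
  rw [e n]

end

end Pool.Agent.W45.FL
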