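import Pool.Agent.W45.FL.Nu

/-!
MP_44611a_co (S08439), subtask FL-G2, part 1: separation by grid elements.
-/

set_option autoImplicit false

namespace Pool.Agent.W45.FL

open Filter Topology MeasureTheory Pool.Agent.W227.FL

section
variable {A B : Type} [LinearOrder A] [LinearOrder B] {cA : A → Bool} {cB : B → Bool}
variable {g : ℕ → A} {g' : ℕ → B}

/-- separated by a grid element of index `< K` -/
def Sep (g : ℕ → A) (K : ℕ) (x y : A) : Prop :=
  ∃ l < K, (x < g l ∧ g l < y) ∨ (y < g l ∧ g l < x)

theorem tpx_E {K : ℕ} {x : A} {x' : B} (h : tpx cA g x K = tpx cB g' x' K) :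
    E cA cB K (insert (x, x') (Set.range fun i : Fin K => (g i, g' i))) :=
  rt_snoc_eq_iff.1 h

theorem tpx_of_E {K : ℕ} {x : A} {x' : B}
    (h : E cA cB K (insert (x, x') (Set.range fun i : Fin K => (g i, g' i)))) :
    tpx cA g x K = tpx cB g' x' K :=
  rt_snoc_eq_iff.2 h

theorem tpx_lt {K l : ℕ} (hl : l < K) {x : A} {x' : B} (h : tpx cA g x K = tpx cB g' x' K) :
    (x < g l ↔ x' < g' l) ∧ (g l < x ↔ g' l < x') := by
  have hE := tpx_E h
  have h1 : (x, x') ∈ insert (x, x') (Set.range fun i : Fin K => (g i, g' i)) :=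
    Set.mem_insert _ _
  have h2 : (g l, g' l) ∈ insert (x, x') (Set.range fun i : Fin K => (g i, g' i)) :=
    Set.mem_insert_of_mem _ ⟨⟨l, hl⟩, rfl⟩
  exact ⟨hE.lt_iff h1 h2, hE.lt_iff h2 h1⟩

theorem tpx_anti {j K : ℕ} (hj : j ≤ K) {x : A} {x' : B} (h : tpx cA g x K = tpx cB g' x' K) :
    tpx cA g x j = tpx cB g' x' j := by
  refine tpx_of_E (E.mono ?_ ((tpx_E h).anti hj))
  rintro p (rfl | ⟨i, rfl⟩)
  · exact Set.mem_insert _ _
  · exact Set.mem_insert_of_mem _ ⟨⟨i, lt_of_lt_of_le i.2 hj⟩, rfl⟩

theorem Sep.transfer {K : ℕ} {x y : A} {x' y' : B} (hx : tpx cA g x K = tpx cB g' x' K)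
    (hy : tpx cA g y K = tpx cB g' y' K) (h : Sep g K x y) : Sep g' K x' y' := by
  obtain ⟨l, hl, h⟩ := h
  refine ⟨l, hl, ?_⟩
  rcases h with h | h
  · left
    exact ⟨(tpx_lt hl hx).1.1 h.1, (tpx_lt hl hy).2.1 h.2⟩
  · right
    exact ⟨(tpx_lt hl hy).1.1 h.1, (tpx_lt hl hx).2.1 h.2⟩

theorem rt_eq_of_sep {q K k : ℕ} (hq : q ≤ K) (hk : 0 < k) {v : Fin k → A} {v' : Fin k → B}
    (ht : ∀ i, tpx cA g (v i) K = tpx cB g' (v' i) K)
    (hs : ∀ i j, i ≠ j → Sep g K (v i) (v j)) : rt cA q v = rt cB q v' := by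
  refine rt_eq_of_pairs (fun i j => ?_) hk
  have key : ∀ (i : Fin k) (l : ℕ), l < K → E cA cB q {(v i, v' i), (g l, g' l)} := by
    intro i l hl
    refine E.mono ?_ ((tpx_E (ht i)).anti hq)
    rintro p (rfl | hp)
    · exact Set.mem_insert _ _
    · rw [Set.mem_singleton_iff] at hp
      subst hp
      exact Set.mem_insert_of_mem _ ⟨⟨l, hl⟩, rfl⟩
  by_cases hij : i = j
  · subst hij
    refine E.mono ?_ ((tpx_E (ht i)).anti hq)
    rintro p (rfl | hp)
    · exact Set.mem_insert _ _
    · rw [Set.mem_singleton_iff] at hp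
      subst hp
      exact Set.mem_insert _ _
  · obtain ⟨l, hl, h⟩ := hs i j hij
    rcases h with h | h
    · have := E.glue (R1 := {(v i, v' i), (g l, g' l)}) (R2 := {(v j, v' j), (g l, g' l)})
        (g := (g l, g' l)) (by simp) (by simp) (by
          rintro x (rfl | hx)
          · exact h.1.le
          · rw [Set.mem_singleton_iff] at hx
            subst hx; exact le_rfl) (by
          rintro x (rfl | hx)
          · exact h.2.le
          · rw [Set.mem_singleton_iff] at hx
            subst hx; exact le_rfl) (key i l hl) (key j l hl)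
      refine E.mono ?_ this
      rintro p (rfl | hp)
      · left; exact Set.mem_insert _ _
      · rw [Set.mem_singleton_iff] at hp
        subst hp
        right; exact Set.mem_insert _ _
    · have := E.glue (R1 := {(v j, v' j), (g l, g' l)}) (R2 := {(v i, v' i), (g l, g' l)})
        (g := (g l, g' l)) (by simp) (by simp) (by
          rintro x (rfl | hx)
          · exact h.1.le
          · rw [Set.mem_singleton_iff] at hx
            subst hx; exact le_rfl) (by
          rintro x (rfl | hx)
          · exact h.2.le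
          · rw [Set.mem_singleton_iff] at hx
            subst hx; exact le_rfl) (key j l hl) (key i l hl)
      refine E.mono ?_ this
      rintro p (rfl | hp)
      · right; exact Set.mem_insert _ _
      · rw [Set.mem_singleton_iff] at hp
        subst hp
        left; exact Set.mem_insert _ _

end

/-! ### counting in `Fin m` -/

/-- grid elements separate points which are not close -/
theorem sep_of_far {m N K : ℕ} (hm : 0 < m) (hN : 0 < N) (hK : Nat.pair N N + 2 ≤ K)
    {x y : Fin m} (h : (x : ℕ) + (m / N + 1) < y) :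
    Sep (fun i => (⟨grank i m, grank_lt hm⟩ : Fin m)) K x y := by
  set a := ((x + 1) * N + m - 1) / m with ha
  have h1 : (x + 1 : ℕ) * N ≤ a * m := by
    have := Nat.lt_div_mul_add hm (a := (x + 1) * N + m - 1)
    rw [← ha] at this
    omega
  have h2 : a * m ≤ (x + 1) * N + (m - 1) := by
    have := Nat.div_mul_le_self ((x + 1) * N + m - 1) m
    rw [← ha] at this
    omega
  have h3 : (x : ℕ) + 1 ≤ a * m / N := by
    rw [Nat.le_div_iff_mul_le hN]
    exact h1
  have h4 : a * m / N ≤ (x + 1) + m / N := by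
    calc a * m / N ≤ ((x + 1) * N + (m - 1)) / N := Nat.div_le_div_right h2
      _ = (x + 1) + (m - 1) / N := by
        rw [add_comm, Nat.add_mul_div_right _ _ hN, add_comm]
      _ ≤ (x + 1) + m / N := by
        have : (m - 1) / N ≤ m / N := Nat.div_le_div_right (Nat.sub_le _ _)
        omega
  have h5 : a * m / N < y := by omega
  have hy := y.2
  have haN : a < N := by
    by_contra hcon
    push Not at hcon
    have : m ≤ a * m / N := by
      rw [Nat.le_div_iff_mul_le hN, mul_comm]
      exact Nat.mul_le_mul_right m hcon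
    omega
  have hgr : grank (Nat.pair a N + 2) m = a * m / N := by
    show min ((Nat.unpair (Nat.pair a N)).1 * m / (Nat.unpair (Nat.pair a N)).2) (m - 1) = _
    rw [Nat.unpair_pair]
    show min (a * m / N) (m - 1) = _
    rw [Nat.min_eq_left]
    omega
  refine ⟨Nat.pair a N + 2, ?_, Or.inl ⟨?_, ?_⟩⟩
  · have := Nat.pair_lt_pair_left N haN
    omega
  · show (x : ℕ) < grank (Nat.pair a N + 2) m
    rw [hgr]; omega
  · show grank (Nat.pair a N + 2) m < (y : ℕ)
    rw [hgr]; exact h5

theorem close_of_not_sep {m N K : ℕ} (hm : 0 < m) (hN : 0 < N) (hK : Nat.pair N N + 2 ≤ K)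
    {x y : Fin m} (h : ¬ Sep (fun i => (⟨grank i m, grank_lt hm⟩ : Fin m)) K x y) :
    (y : ℕ) ≤ x + (m / N + 1) ∧ (x : ℕ) ≤ y + (m / N + 1) := by
  constructor
  · by_contra hcon
    push Not at hcon
    exact h (sep_of_far hm hN hK hcon)
  · by_contra hcon
    push Not at hcon
    obtain ⟨l, hl, h'⟩ := sep_of_far hm hN hK hcon
    exact h ⟨l, hl, h'.symm⟩

/-- a set of pairwise close elements is small -/
theorem card_close_le {m L : ℕ} (D : Set (Fin m))
    (hD : ∀ x ∈ D, ∀ y ∈ D, (y : ℕ) ≤ x + L) : Nat.card D ≤ L + 1 := by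
  classical
  rcases D.eq_empty_or_nonempty with h | h
  · rw [h]; simp
  · obtain ⟨x, hx, hmin⟩ := Set.exists_min_image D (fun x : Fin m => x) (Set.toFinite _) h
    have hinj : Function.Injective (fun y : D => (⟨(y : Fin m) - (x : Fin m), by
        have h1 := hD x hx y y.2
        omega⟩ : Fin (L + 1))) := by
      intro y z hyz
      simp only [Fin.mk.injEq] at hyz
      have h1 := hmin y y.2
      have h2 := hmin z z.2
      rw [Fin.le_def] at h1 h2
      ext
      omega
    have := Nat.card_le_card_of_injective _ hinj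
    simpa using this

/-- the number of tuples with two given entries close to each other -/
theorem card_pair_le {m L k : ℕ} (i j : Fin k) (hij : i ≠ j) (P : Fin m → Fin m → Prop)
    (hP : ∀ x y, P x y → (y : ℕ) ≤ x + L ∧ (x : ℕ) ≤ y + L) :
    Nat.card {v : Fin k → Fin m // P (v i) (v j)} ≤ m ^ (k - 1) * (2 * L + 1) := by
  classical
  let F : {v : Fin k → Fin m // P (v i) (v j)} → ({i' : Fin k // i' ≠ j} → Fin m) × Fin (2 * L + 1) :=
    fun v => (fun i' => v.1 i', ⟨(v.1 j : ℕ) + L - (v.1 i : ℕ), by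
      have := hP _ _ v.2
      omega⟩)
  have hF : Function.Injective F := by
    intro v w h
    have h1 := congrArg Prod.fst h
    have h2 := congrArg Prod.snd h
    simp only [F, Fin.mk.injEq] at h1 h2
    have h3 : ∀ i', i' ≠ j → v.1 i' = w.1 i' := fun i' hi' => congrFun h1 ⟨i', hi'⟩
    have h4 := h3 i hij
    have hv := hP _ _ v.2
    have hw := hP _ _ w.2
    apply Subtype.ext
    funext i'
    by_cases hi' : i' = j
    · subst hi'
      ext
      rw [h4] at h2 hv
      omega
    · exact h3 i' hi'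
  have := Nat.card_le_card_of_injective F hF
  refine this.trans (le_of_eq ?_)
  rw [Nat.card_prod, Nat.card_eq_fintype_card, Fintype.card_fun, Nat.card_eq_fintype_card,
    Fintype.card_fin, Fintype.card_fin]
  congr 2
  rw [Fintype.card_subtype_compl]
  simp

end Pool.Agent.W45.FL
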